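import Pool.Agent.Y718.FQ.Vals
import Pool.Agent.Y718.FQ.Ring
import Pool.Agent.Y718.FQ.Emb

/-!
# Complex polynomial rings are not defined by smooth quartic double covers

Let `K = ℂ(t₁, …, t_n)`, `n ≥ 1`, and `R = ℂ[t₁, …, t_n]`. Every Diophantine subset of `K` (with
parameters) is the set of the values of a coordinate at the points with coordinates in `K` of one
hypersurface `f = 0` with `deg f ≤ 4`, for example of a hypersurface `w² = f(z)`. A *block* is an
affine space over `K`, or the set of the points `(w, z₁, …, z_m)` with coordinates in `K` and `w ≠ 0`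
of a double cover `w² = f(z₁, …, z_m)`, where `m ≥ 2` and `f` is a polynomial over `K` of degree at
most four such that the quartic hypersurface defined by it in `ℙᵐ` is smooth.

(1) `R` is not a finite union of sets of values of rational functions over `K` at the points of
products of blocks.

(2) If a set of values of a rational function at the points of a product of blocks is contained in
`R`, then it is finite. This holds also with `ℂ` replaced by any field of characteristic zero with at
most continuum many elements.

The proof. The ring `R` is flat in `K`: a rational function in one variable over `K` all of whose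
values are in `R` is constant. On the generic line through a point `P` of the double cover, which is
a curve of genus one over the field `K(e)` of rational functions, one takes the points `P + 2ⁱ D`,
`D` the difference of `P` and its conjugate. A rational function on the double cover with values in a
flat set has constant values at these points. There is a place of `K(e)` at which `2 D` specializes
to zero, so all these values are the value at `P`, and the function is constant.
-/

set_option autoImplicit false

namespace Pool.Agent.Results.MP_4369f4_lc.QuarticDoubleCovers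

open MvPolynomial Cardinal

/-- A block: an affine space over `K`, or the set of the points `y = (w, z₁, …, z_n)` with
coordinates in `K` and `w ≠ 0` of a double cover `w² = F(1, z₁, …, z_n)`, where `n ≥ 2` and `F` is
a form of degree four over `K` such that the hypersurface `F = 0` in `ℙⁿ` is smooth. The vector
`(1, z₁, …, z_n)` is `Function.update y 0 1`. -/
def Block {K : Type} [Field K] {n : ℕ} (S : Set (Fin (n + 1) → K)) : Prop :=
  S = Set.univ ∨ (2 ≤ n ∧ ∃ F : MvPolynomial (Fin (n + 1)) K, F.IsHomogeneous 4 ∧
    (∀ y : Fin (n + 1) → AlgebraicClosure K, (∀ i, aeval y (pderiv i F) = 0) → y = 0) ∧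
    S = {y | y 0 ^ 2 = eval (Function.update y 0 1) F ∧ y 0 ≠ 0})

/-- The values of `p / q` at the points `x = (x₁, …, x_r)` with `x_j ∈ S_j` for all `j` and
`q(x) ≠ 0`. -/
def values {K : Type} [Field K] {r : ℕ} {n : Fin r → ℕ} (S : ∀ j, Set (Fin (n j + 1) → K))
    (p q : MvPolynomial ((j : Fin r) × Fin (n j + 1)) K) : Set K :=
  {t | ∃ x : (j : Fin r) × Fin (n j + 1) → K, (∀ j, (fun i => x ⟨j, i⟩) ∈ S j) ∧
    eval x q ≠ 0 ∧ t = eval x p / eval x q}

theorem result :
    -- (1) the polynomial ring is not a finite union of sets of values
    (∀ (n : ℕ), 1 ≤ n → ∀ (l : ℕ) (s : Fin l → ℕ) (d : ∀ i, Fin (s i) → ℕ)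
      (S : ∀ i, ∀ j, Set (Fin (d i j + 1) → FractionRing (MvPolynomial (Fin n) ℂ))),
      (∀ i j, Block (S i j)) →
      ∀ p q : ∀ i, MvPolynomial ((j : Fin (s i)) × Fin (d i j + 1))
        (FractionRing (MvPolynomial (Fin n) ℂ)),
      ⋃ i, values (S i) (p i) (q i) ≠ Set.range
        (algebraMap (MvPolynomial (Fin n) ℂ) (FractionRing (MvPolynomial (Fin n) ℂ)))) ∧
    -- (2) sets of values contained in the polynomial ring are finite
    (∀ (k : Type) [Field k] [CharZero k], #k ≤ continuum → ∀ (n : ℕ), 1 ≤ n →
      ∀ (s : ℕ) (d : Fin s → ℕ)
      (S : ∀ j, Set (Fin (d j + 1) → FractionRing (MvPolynomial (Fin n) k))),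
      (∀ j, Block (S j)) →
      ∀ p q : MvPolynomial ((j : Fin s) × Fin (d j + 1)) (FractionRing (MvPolynomial (Fin n) k)),
      values S p q ⊆ Set.range
        (algebraMap (MvPolynomial (Fin n) k) (FractionRing (MvPolynomial (Fin n) k))) →
      (values S p q).Finite) := by
  have main : ∀ (k : Type) [Field k] [CharZero k], #k ≤ continuum → ∀ (n : ℕ), 1 ≤ n →
      ∀ (s : ℕ) (d : Fin s → ℕ)
      (S : ∀ j, Set (Fin (d j + 1) → FractionRing (MvPolynomial (Fin n) k))),
      (∀ j, Block (S j)) →
      ∀ p q : MvPolynomial ((j : Fin s) × Fin (d j + 1)) (FractionRing (MvPolynomial (Fin n) k)),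
      values S p q ⊆ Set.range
        (algebraMap (MvPolynomial (Fin n) k) (FractionRing (MvPolynomial (Fin n) k))) →
      (values S p q).Finite := by
    intro k _ _ hk n hn s d S hS p q h
    obtain ⟨φ⟩ := Pool.Agent.Y718.FQ.emb_fr k hk (Fin n)
    have : CharZero (FractionRing (MvPolynomial (Fin n) k)) := charZero_of_injective_algebraMap
      (IsFractionRing.injective (MvPolynomial (Fin n) k) (FractionRing (MvPolynomial (Fin n) k)))
    have : Nonempty (Fin n) := ⟨⟨0, hn⟩⟩
    exact Pool.Agent.Y718.FQ.fin_vals (Pool.Agent.Y718.FQ.flat_poly (k := k) (κ := Fin n)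
      (K := FractionRing (MvPolynomial (Fin n) k))) φ hS p q fun t ht => h ht
  refine ⟨fun n hn l s d S hS p q heq => ?_, main⟩
  have h1 : (⋃ i, values (S i) (p i) (q i)).Finite := by
    refine Set.finite_iUnion fun i => ?_
    refine main ℂ (Cardinal.mk_complex).le n hn (s i) (d i) (S i) (hS i) (p i) (q i) ?_
    rw [← heq]
    exact Set.subset_iUnion (fun i => values (S i) (p i) (q i)) i
  rw [heq] at h1
  exact Set.infinite_range_of_injective (IsFractionRing.injective (MvPolynomial (Fin n) ℂ)
    (FractionRing (MvPolynomial (Fin n) ℂ))) h1

end Pool.Agent.Results.MP_4369f4_lc.QuarticDoubleCovers
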